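import Pool.Agent.H867R5.BL.Main

/-!
# Vassiliev invariants on lattices of closed braids

Oriented links in the three-sphere are presented as closures of braids (Alexander, Markov).  The
definitions are in `Pool.Agent.H867R5.BL.Defs`:

* `rels m`, `br`: relations of the braid group on `m + 1` strands, the braid of a word;
* `Link`: a braid word on `m + 1` strands for some `m`, it stands for the closure of the braid;
* `IsInvariant v`: `v` depends on the braid only and is unchanged by the moves of Markov
  (conjugation and stabilisation), i.e. `v` is an invariant of oriented links;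
* `sing`: the extension to closures of singular braids by the Vassiliev skein relation;
* `IsVassiliev n v`: `v` is an invariant of oriented links of order at most `n`;
* `Separated d X Y`: some integer valued Vassiliev invariant of order at most `d` has different
  values on `X` and `Y`;
* `lattice c b n`: the closure of `b_1 ^ n_1 b_2 ^ n_2 ⋯ b_k ^ n_k c`.

From `Pool.Agent.H867R5.TL.Defs`:

* `Letter m`: `(i, true)`, `(i, false)`: the generator `σ_i`, `i = 0, …, m - 1`, and its inverse;
* `inv`, `wpow w n`: inverses and integer powers of braid words;
* `pureWord b`: the product of the words `u x x u⁻¹` over the members `(u, x)` of the list `b`, `x` a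
  letter.  Every pure braid has such a word, since the pure braid group is the normal closure of
  the squares of the generators.

By conjugation `c_0 b_1 ^ n_1 c_1 ⋯ b_k ^ n_k c_k` is a family of the same kind.
-/

set_option autoImplicit false

namespace Pool.Agent.Results.MP_31fd3b_gt.BraidLattices

open Pool.Agent.H867R5.TL (Letter)
open Pool.Agent.H867R5.BL

/-- Let `K(n) = lattice c b n`, `n ∈ ℤ^k`, be the closure of `b_1 ^ n_1 ⋯ b_k ^ n_k c` (`b_j` pure
braids, `c` a braid) and `K'(n') = lattice c' b' n'`, `n' ∈ ℤ^k'`, a second family of this kind
(`x = (n, n') ∈ ℤ^(k + k')`).  There is an `N` such that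

* the set of the pairs `(n, n')` for which no Vassiliev invariant separates `K(n)` from `K'(n')` is
  the set of the integer solutions of finitely many polynomial equations of degree at most `N`;
* if some Vassiliev invariant separates `K(n)` from `K'(n')`, then one of order at most `N` does;
* for every `d`: if a Vassiliev invariant of order at most `d` separates some `K(n)` from some
  `K'(n')`, then for every `M` invariants of order at most `d` separate `K(n)` from `K'(n')` for all
  but at most `d (2 M + 1)^(k + k' - 1)` of the `(2 M + 1)^(k + k')` pairs `(n, n')` with coordinates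
  of absolute value at most `M`. -/
theorem result (m m' k k' : ℕ) (c : List (Letter m)) (c' : List (Letter m'))
    (b : Fin k → List (List (Letter m) × Letter m))
    (b' : Fin k' → List (List (Letter m') × Letter m')) :
    ∃ N : ℕ,
      (∃ (r : ℕ) (q : Fin r → MvPolynomial (Fin (k + k')) ℚ), (∀ i, (q i).totalDegree ≤ N) ∧
        ∀ x : Fin (k + k') → ℤ, (∀ d, ¬ Separated d (lattice c b (x ∘ Fin.castAdd k'))
          (lattice c' b' (x ∘ Fin.natAdd k))) ↔
          ∀ i, MvPolynomial.eval (fun j => (x j : ℚ)) (q i) = 0) ∧
      (∀ (x : Fin (k + k') → ℤ) (d : ℕ), Separated d (lattice c b (x ∘ Fin.castAdd k'))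
        (lattice c' b' (x ∘ Fin.natAdd k)) → Separated N (lattice c b (x ∘ Fin.castAdd k'))
        (lattice c' b' (x ∘ Fin.natAdd k))) ∧
      (∀ d : ℕ, (∀ x : Fin (k + k') → ℤ, ¬ Separated d (lattice c b (x ∘ Fin.castAdd k'))
        (lattice c' b' (x ∘ Fin.natAdd k))) ∨
        ∀ M : ℕ, {x : Fin (k + k') → ℤ | (∀ j, |x j| ≤ M) ∧
          ¬ Separated d (lattice c b (x ∘ Fin.castAdd k'))
            (lattice c' b' (x ∘ Fin.natAdd k))}.ncard ≤ d * (2 * M + 1) ^ (k + k' - 1)) :=
  two m m' k k' c c' b b'

end Pool.Agent.Results.MP_31fd3b_gt.BraidLattices
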