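import Pool.Agent.H832R3.VJ.Fin

/-!
# Finitely many Vassiliev invariants separate the links with lacunary twist numbers

Diagrams: `Pool.Agent.H891R2.Jones.Diagram` (`Crossing`, `Diagram`: oriented link diagrams with
marked points; `Diagram.IsClosed`) and `Pool.Agent.H891R2.MT.Defs` (`Ribbon k`: a ribbon graph with
`k` edges, given by the rotation system on its `2 k` darts; `Ribbon.verts`, `Ribbon.faces`,
`Ribbon.comps`; `Ribbon.Planar`: connected and Euler's formula, a connected plane graph;
`Ribbon.link n`: the unoriented link diagram which is the boundary of the surface made of one disc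
for every vertex and, for every edge `e`, a band with `n e` half twists, that is, a row of `|n e|`
crossings; `Orients D U`: `D` is the unoriented diagram `U` with directions).
`Ribbon.Bridgeless S` (in `Pool.Agent.H891R2.MT.T8`): no edge of `S` is a bridge of the graph with
edge set `S`, that is, `S` is a union of cycles.  `ThreeEdgeConnected Γ` (in
`Pool.Agent.H832R3.VJ.Defs2`): `Γ` is connected, also after the removal of one or two edges.

Vassiliev invariants: `Pool.Agent.H832R3.VJ.Defs` (`Dia`: an oriented diagram with the finite set of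
its marked points; `Move`: relabelling, subdivision of strands and the Reidemeister moves; `sing`:
extension to diagrams with double points by the Vassiliev skein relation; `IsVassiliev n v`: `v` is
an invariant of oriented links of order at most `n`; `Separated d X Y`: some integer valued
Vassiliev invariant of order at most `d` has different values on `X` and `Y`).
-/

set_option autoImplicit false

namespace Pool.Agent.Results.MP_31fd3b_gt.LacunaryLinks

open Pool.Agent.H891R2.Jones Pool.Agent.H891R2.MT Pool.Agent.H832R3.VJ

/-- Let `Γ`, `Γ'` be three-edge-connected plane graphs with at most `K` edges, and let `n`, `n'` be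
integer vectors such that the sums of `n` over any two different sets of edges differ by more than
`8 K + 8`, and the same for `n'`.  Let `D`, `D'` be the link diagrams with `|n e|` (`|n' e|`)
crossings on the edge `e` of `Γ` (`Γ'`), with any directions.  Then either some Vassiliev invariant
of order at most `2 ^ (K + 1) * (16 * K + 17)` takes different values on `D` and `D'`, or there is a
bijection `σ` between the edges with `n = n' ∘ σ` which maps the unions of cycles of `Γ` to the
unions of cycles of `Γ'`. -/
theorem result (K k k' : ℕ) (hk0 : 0 < k) (hk0' : 0 < k') (hk : k ≤ K) (hk' : k' ≤ K)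
    (Γ : Ribbon k) (Γ' : Ribbon k') (hΓ : Γ.Planar) (hΓ' : Γ'.Planar)
    (h3 : ThreeEdgeConnected Γ) (h3' : ThreeEdgeConnected Γ') (n : Fin k → ℤ) (n' : Fin k' → ℤ)
    (hn : ∀ S S' : Finset (Fin k), S ≠ S' → 8 * K + 8 < |∑ e ∈ S, n e - ∑ e ∈ S', n e|)
    (hn' : ∀ S S' : Finset (Fin k'), S ≠ S' → 8 * K + 8 < |∑ e ∈ S, n' e - ∑ e ∈ S', n' e|)
    (D : Diagram (Ribbon.Pt n)) (D' : Diagram (Ribbon.Pt n')) (hD : Orients D (Γ.link n))
    (hD' : Orients D' (Γ'.link n')) :
    Separated (2 ^ (K + 1) * (16 * K + 17)) ⟨_, inferInstance, D⟩ ⟨_, inferInstance, D'⟩ ∨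
      ∃ σ : Fin k ≃ Fin k', (∀ e, n e = n' (σ e)) ∧
        ∀ S, Γ.Bridgeless S ↔ Γ'.Bridgeless (S.map σ.toEmbedding) := by
  by_cases h : Separated (2 ^ (K + 1) * (16 * K + 17)) ⟨_, inferInstance, D⟩
      ⟨_, inferInstance, D'⟩
  · exact Or.inl h
  · exact Or.inr (complete hk0 hk0' hk hk' Γ Γ' hΓ hΓ' h3 h3' n n' hn hn' D D' hD hD' h)

end Pool.Agent.Results.MP_31fd3b_gt.LacunaryLinks
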