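import Pool.Agent.H832R3.VJ.G2

/-!
# Separation of knots with random crossings by an invariant of order two

Shadows: `Pool.Agent.H832R2.JR.Defs` (`GaussWord N`: a closed curve with `N` double points, given by
the places of the two passages of every double point; `Crosses G i j`: the chords of `i` and `j`
cross; `IsMatching`; `classes G`: the number of different nonempty sets `{j | Crosses G i j}`).
Diagrams: `Pool.Agent.H832R3.VJ.GDefs` (`gaussDia G o w`: the oriented knot diagram with shadow `G`,
local directions of crossing `o` and signs `w` of the crossings; it is closed: `gauss_isClosed`).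
Vassiliev invariants: `Pool.Agent.H832R3.VJ.Defs` (`Dia`, `Move`, `sing`, `IsVassiliev n v`,
`Separated d X Y`: some integer valued Vassiliev invariant of order at most `d` has different
values on `X` and `Y`).
-/

set_option autoImplicit false

namespace Pool.Agent.Results.MP_31fd3b_gt.RandomOrderTwo

open Pool.Agent.H832R2 Pool.Agent.H832R3.VJ

/-- Let `G` (with local directions `o`) be the shadow of a knot diagram with `N` crossings and let
`E` be an oriented link diagram.

* If there are `m` pairwise disjoint pairs of crossing chords, then at most `4 m^(-1/8) 2^N` of the
  `2^N` choices of the crossings give a knot which is not separated from `E` by a Vassiliev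
  invariant of order at most two.
* If `t` is the number of classes of chords which cross some chord (two chords being in one class
  if they cross the same chords), then this happens for at most `6 t^(-1/8) 2^N` choices. -/
theorem result (N : ℕ) (G : JR.GaussWord N) (o : Fin N → Bool) (E : Dia) :
    (∀ (m : ℕ) (u v : Fin m → Fin N), JR.IsMatching G u v →
      (Nat.card {w : Fin N → Bool // ¬ Separated 2 (gaussDia G o w) E} : ℝ) *
        (m : ℝ) ^ (1 / 8 : ℝ) ≤ 4 * 2 ^ N) ∧
    (Nat.card {w : Fin N → Bool // ¬ Separated 2 (gaussDia G o w) E} : ℝ) *
      (JR.classes G : ℝ) ^ (1 / 8 : ℝ) ≤ 6 * 2 ^ N :=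
  random G o E

end Pool.Agent.Results.MP_31fd3b_gt.RandomOrderTwo
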