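import Pool.Agent.H891R2.TR.Fin

/-!
# Vassiliev invariants of bounded order recover the twist numbers of generic diagrams

Diagrams: `Pool.Agent.H891R2.Jones.Diagram` (`Crossing`, `Diagram`, `Diagram.IsClosed`),
`Pool.Agent.H891R2.MT.Defs` (`UDiagram`; `Orients D U`: `D` is the unoriented diagram `U` with
directions) and `Pool.Agent.H891R2.SI.Defs`:

* `Sites k`: a diagram `O` with `k` open boxes (sites), each with four corners; planarity is not
  required; `O.Connected`: the diagram is connected (each site being one piece);
* `O.fill w`, `w ∈ ℤ^k`: the site `e` is filled with two vertical strands twisted around each other, a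
  row of `|w e|` crossings of the kind given by the sign of `w e`;
* `O.cut`: every site is filled with a cup and a cap, that is, all sites are cut through;
* `det U`: the determinant of a diagram, the absolute value of its bracket at `A = e^{πi/4}`.

`Pool.Agent.H891R2.TR.Defs`: `Generic M w`: every integer combination `∑ a e * w e` with
`|a e| ≤ 8`, not all `a e = 0`, has absolute value more than `M`.

Vassiliev invariants: `Pool.Agent.H832R3.VJ.Defs` (`Dia`: an oriented diagram with the finite set of
its marked points; `Move`: relabelling, subdivision of strands and the Reidemeister moves; `sing`: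
extension to diagrams with double points by the Vassiliev skein relation; `IsVassiliev n v`: `v` is
an invariant of oriented links of order at most `n`; `Separated d X Y`: some integer valued
Vassiliev invariant of order at most `d` has different values on `X` and `Y`).
-/

set_option autoImplicit false

namespace Pool.Agent.Results.MP_31fd3b_gt.TwistRecovery

open Pool.Agent.H891R2.Jones Pool.Agent.H891R2.MT Pool.Agent.H891R2.SI Pool.Agent.H891R2.TR
  Pool.Agent.H832R3.VJ

/-- Let `O`, `O'` be connected diagrams with at most `C` crossings and with `k`, `k'` sites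
(`1 ≤ k, k' ≤ K`), such that the links `O.cut`, `O'.cut` have nonzero determinants (for classical
diagrams: for instance, such that they are knots), and let `w ∈ ℤ^k`, `w' ∈ ℤ^k'` be generic, with
arbitrary signs.

* If the links `O.fill w` and `O'.fill w'`, with any directions, are not separated by the Vassiliev
  invariants of order at most `2 ^ (K + 1) (12 K + 6 C + 1)`, then `k = k'` and, up to the order, the
  twist numbers `w e` and `w' e` differ by at most `12 (K + C)`.
* For `k ≥ 1`, at most `17 ^ k (24 (3 K + 1) (K + C) + 1) (2 N + 1) ^ (k - 1)` of the `(2 N + 1) ^ k`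
  vectors `w` with `|w e| ≤ N` are not generic. -/
theorem result (K C : ℕ) : 
    (∀ (k k' : ℕ), 0 < k → 0 < k' → k ≤ K → k' ≤ K → ∀ (O : Sites k) (O' : Sites k'), 
      O.Connected → O'.Connected → O.crossings.length ≤ C → O'.crossings.length ≤ C → 
      det O.cut ≠ 0 → det O'.cut ≠ 0 → ∀ (w : Fin k → ℤ) (w' : Fin k' → ℤ), 
      Generic ((3 * K + 1) * (12 * (K + C))) w → Generic ((3 * K + 1) * (12 * (K + C))) w' → 
      ∀ (D : Diagram (O.P ⊕ Ribbon.Pt w)) (D' : Diagram (O'.P ⊕ Ribbon.Pt w')), 
      Orients D (O.fill w) → Orients D' (O'.fill w') → D.IsClosed → D'.IsClosed → 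
      ¬ Separated (2 ^ (K + 1) * (12 * K + 6 * C + 1)) ⟨_, inferInstance, D⟩ 
        ⟨_, inferInstance, D'⟩ → 
      ∃ σ : Fin k ≃ Fin k', ∀ e, |w e - w' (σ e)| ≤ 12 * (K + C)) ∧ 
    (∀ k N : ℕ, 0 < k → {w : Fin k → ℤ | (∀ e, |w e| ≤ N) ∧ 
      ¬ Generic ((3 * K + 1) * (12 * (K + C))) w}.ncard ≤ 
        17 ^ k * (2 * ((3 * K + 1) * (12 * (K + C))) + 1) * (2 * N + 1) ^ (k - 1)) := by
  refine ⟨fun k k' hk0 hk0' hk hk' O O' hO hO' hC hC' hd hd' w w' hw hw' D D' hD hD' hc hc' hs => 
    main K C hk0 hk0' hk hk' O O' hO hO' hC hC' hd hd' w w' hw hw' D D' hD hD' hc hc' hs, 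
    fun k N hk => ?_⟩
  have := count_generic hk ((3 * K + 1) * (12 * (K + C))) N
  push_cast at this
  exact this

end Pool.Agent.Results.MP_31fd3b_gt.TwistRecovery
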